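import Pool.Agent.ZES.StmtsL

set_option autoImplicit false

/-!
Helper72, squad ZES (MP_160b6c_nt), row LOU: the output of the block on closed subgroups.
-/

namespace Pool.Agent.ZES.H72

open scoped BigOperators InnerProductSpace

theorem decomp {V : Type} [NormedAddCommGroup V] [InnerProductSpace ℂ V] [FiniteDimensional ℂ V]
    (W : Submodule ℂ V) (x : V) : W.starProjection x + Wᗮ.starProjection x = x :=
  Submodule.starProjection_add_starProjection_orthogonal (K := W) x

theorem mem_iff {V : Type} [NormedAddCommGroup V] [InnerProductSpace ℂ V]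
    [FiniteDimensional ℂ V] (W : Submodule ℂ V) (x : V) : Wᗮ.starProjection x = 0 ↔ x ∈ W := by
  constructor
  · intro h
    have h1 := decomp W x
    rw [h, add_zero] at h1
    exact Submodule.starProjection_eq_self_iff.1 h1
  · intro h
    have h1 := decomp W x
    rw [Submodule.starProjection_eq_self_iff.2 h] at h1
    exact add_eq_left.1 h1

/-- Row LOU. -/
theorem lou (hLIC : LicStmt) (hRNK : RnkStmt) : LouStmt := by
  intro V _ _ _ L χ hL Z W hZ hLZ hW hv
  have hfin : FiniteDimensional ℝ V := FiniteDimensional.complexToReal V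
  have hWZ : ∀ w ∈ W, w ∈ Z := fun w hw => by
    have h := (hW w).1 hw 1
    rwa [one_smul] at h
  have hC : ∀ x ∈ Z, Wᗮ.starProjection x ∈ Z := fun x hx => by
    have h1 : Wᗮ.starProjection x = x - W.starProjection x :=
      eq_sub_of_add_eq' (decomp W x)
    rw [h1]
    exact Z.sub_mem hx (hWZ _ (Submodule.starProjection_apply_mem W x))
  let Z' : AddSubgroup V := Z ⊓ (Wᗮ).toAddSubgroup
  have hZ'c : IsClosed (Z' : Set V) := by
    have h1 : (Z' : Set V) = (Z : Set V) ∩ (Wᗮ : Set V) := rfl
    rw [h1]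
    exact hZ.inter (Submodule.isClosed_orthogonal W)
  have hZ'd : DiscreteTopology Z' := by
    refine hLIC V Z' hZ'c fun v h => ?_
    have h1 : v ∈ W := hv v fun t => by
      have h2 : t • v ∈ Z := (h t).1
      rwa [← Complex.coe_smul] at h2
    have h3 : v ∈ Wᗮ := by
      have h2 : (1 : ℝ) • v ∈ Wᗮ := (h 1).2
      rwa [one_smul] at h2
    exact Submodule.disjoint_def.1 W.orthogonal_disjoint v h1 h3
  have hle : (LC L W : Set V) ⊆ (Z' : Set V) := by
    rintro _ ⟨x, hx, rfl⟩
    exact ⟨hC x (hLZ hx), Submodule.starProjection_apply_mem (Wᗮ) x⟩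
  have hd : DiscreteTopology (LC L W) := DiscreteTopology.of_subset hZ'd hle
  refine ⟨fun w hw => ?_, hd⟩
  let π : V →ₗ[ℝ] V := (Wᗮ.starProjection : V →L[ℂ] V).toLinearMap.restrictScalars ℝ
  have h1 := hRNK V L π hL.disc hL.span hd
  have h2 : w ∈ LinearMap.ker π := by
    rw [LinearMap.mem_ker]
    exact (mem_iff W w).2 hw
  rw [← h1] at h2
  refine Submodule.span_mono ?_ h2
  rintro x ⟨hx1, hx2⟩
  exact ⟨hx1, (mem_iff W x).1 hx2⟩

end Pool.Agent.ZES.H72
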